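import Pool.Agent.helper96.Slope.Defs
import Pool.Agent.helper35.LinPrimes.Moment
import Pool.Agent.helper23.Slope.ID

/-!
# Module AP: primes in progressions on average over the family
-/

namespace Pool.Agent.helper96.Slope

open Finset Pool.Agent.Lib.BrunHooley ArithmeticFunction
open Pool.Agent.helper35.LinPrimes (theta_half)

lemma ap_rg_le_one (r n : ℕ) : rg r n ≤ 1 := by
  unfold rg
  split_ifs <;> norm_num

lemma ap_cg_le_one (a : ℕ) (c : ℤ) (n : ℕ) : cg a c n ≤ 1 := by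
  unfold cg
  split_ifs <;> norm_num

lemma ap_rg_nonneg (r n : ℕ) : 0 ≤ rg r n := by
  unfold rg
  split_ifs <;> norm_num

lemma ap_cg_nonneg (a : ℕ) (c : ℤ) (n : ℕ) : 0 ≤ cg a c n := by
  unfold cg
  split_ifs <;> norm_num

/-- the choice of the level. -/
lemma ap_level (s X : ℕ) (hs : 2 ≤ s) (hX : 8 ^ (2 * s) ≤ X) :
    ∃ r, (Z r) ^ s ≤ X ∧ X ≤ (Z r) ^ (2 * s) ∧ Z r ≤ X / 8 := by
  have hZ : ∀ r, Z (r + 1) = Z r ^ 2 := by
    intro r
    unfold Z
    rw [← pow_mul, pow_succ 2 r]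
  have hZ0 : Z 0 = 2 := by
    unfold Z
    norm_num
  have hex : ∃ r, X < (Z (r + 1)) ^ s := by
    refine ⟨X, ?_⟩
    have h1 : X < 2 ^ X := Nat.lt_two_pow_self
    have h2 : 2 ^ X ≤ Z (X + 1) := by
      unfold Z
      apply Nat.pow_le_pow_right (by norm_num)
      exact le_trans (Nat.lt_two_pow_self).le (Nat.pow_le_pow_right (by norm_num) (by omega))
    have h3 : Z (X + 1) ≤ (Z (X + 1)) ^ s := Nat.le_self_pow (by omega) _
    omega
  classical
  set r := Nat.find hex with hr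
  have h1 : X < (Z (r + 1)) ^ s := Nat.find_spec hex
  have h1' : X < (Z r) ^ (2 * s) := by
    rw [hZ, ← pow_mul] at h1
    exact h1
  have h2 : (Z r) ^ s ≤ X := by
    rcases Nat.eq_zero_or_pos r with h0 | h0
    · rw [h0, hZ0]
      calc 2 ^ s ≤ 8 ^ s := Nat.pow_le_pow_left (by norm_num) s
        _ ≤ 8 ^ (2 * s) := Nat.pow_le_pow_right (by norm_num) (by omega)
        _ ≤ X := hX
    · have h3 := Nat.find_min hex (m := r - 1) (by omega)
      rw [Nat.sub_add_cancel h0] at h3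
      omega
  have h8 : 8 ≤ Z r := by
    by_contra hlt
    push Not at hlt
    have : (Z r) ^ (2 * s) ≤ 8 ^ (2 * s) := Nat.pow_le_pow_left hlt.le _
    omega
  refine ⟨r, h2, h1'.le, ?_⟩
  rw [Nat.le_div_iff_mul_le (by norm_num)]
  calc Z r * 8 ≤ Z r * Z r := Nat.mul_le_mul_left _ h8
    _ = (Z r) ^ 2 := by ring
    _ ≤ (Z r) ^ s := Nat.pow_le_pow_right (by omega) hs
    _ ≤ X := h2

/-- primes beyond `Z r` are rough. -/
lemma ap_rg_prime (r p : ℕ) (hp : p.Prime) (hz : Z r < p) : rg r p = 1 := by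
  unfold rg
  rw [if_pos]
  intro q hq hdvd
  obtain ⟨hqz, hqp⟩ := Nat.mem_primesLE.mp hq
  have := (Nat.prime_dvd_prime_iff_eq hqp hp).mp hdvd
  omega

lemma ap_theta (X : ℕ) :
    ∑ p ∈ Ioc (X / 8) X with p.Prime, Real.log p = Chebyshev.theta X - Chebyshev.theta ((X / 8 : ℕ) : ℝ) := by
  rw [Chebyshev.theta, Chebyshev.theta, Nat.floor_natCast, Nat.floor_natCast]
  have h : ({p ∈ Ioc 0 X | p.Prime}) = {p ∈ Ioc 0 (X / 8) | p.Prime} ∪ {p ∈ Ioc (X / 8) X | p.Prime} := by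
    rw [← Finset.filter_union, Finset.Ioc_union_Ioc_eq_Ioc (Nat.zero_le _) (Nat.div_le_self _ _)]
  rw [h, Finset.sum_union]
  · ring
  · apply Finset.disjoint_filter_filter
    rw [Finset.disjoint_left]
    intro x hx hx'
    rw [Finset.mem_Ioc] at hx hx'
    omega

/-- the sum over rough numbers is large. -/
lemma ap_one (r X : ℕ) (hz : Z r ≤ X / 8) (hX : 50 ^ 4 ≤ X) :
    (3 / 10 : ℝ) * X ≤ ∑ d ∈ Ioc (X / 8) X, rg r d * Λ d * 1 := by
  have h1 := theta_half X hX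
  have h2 : Chebyshev.theta ((X / 8 : ℕ) : ℝ) ≤ Real.log 4 * (X / 8) := by
    refine le_trans (Chebyshev.theta_le_log4_mul_x (by positivity)) ?_
    apply mul_le_mul_of_nonneg_left _ (Real.log_nonneg (by norm_num))
    exact Nat.cast_div_le
  have h3 : Real.log 4 ≤ 1.4 := by
    have : (4 : ℝ) = 2 ^ 2 := by norm_num
    rw [this, Real.log_pow]
    have := Real.log_two_lt_d9
    push_cast
    linarith
  have h4 : ∑ p ∈ Ioc (X / 8) X with p.Prime, Real.log p ≤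
      ∑ d ∈ Ioc (X / 8) X, rg r d * Λ d * 1 := by
    rw [Finset.sum_filter]
    refine Finset.sum_le_sum fun p hp => ?_
    rw [Finset.mem_Ioc] at hp
    split_ifs with hpp
    · rw [ap_rg_prime r p hpp (by omega), vonMangoldt_apply_prime hpp]
      simp
    · rw [mul_one]
      exact mul_nonneg (ap_rg_nonneg _ _) vonMangoldt_nonneg
  rw [ap_theta] at h4
  have hX0 : (0 : ℝ) ≤ X := Nat.cast_nonneg X
  nlinarith

/-- prime powers are negligible. -/
lemma ap_res (r X a : ℕ) (c : ℤ) :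
    ∑ d ∈ Ioc (X / 8) X, rg r d * Λ d * cg a c d ≤
      ∑ p ∈ Ioc (X / 8) X with p.Prime, cg a c p * Real.log p +
        (Chebyshev.psi X - Chebyshev.theta X) := by
  rw [Chebyshev.psi_sub_theta_eq_sum_not_prime, Nat.floor_natCast]
  have h1 : ∑ n ∈ Ioc (X / 8) X with ¬ n.Prime, Λ n ≤ ∑ n ∈ Ioc 0 X with ¬ n.Prime, Λ n := by
    apply Finset.sum_le_sum_of_subset_of_nonneg
    · apply Finset.filter_subset_filter
      exact Finset.Ioc_subset_Ioc_left (Nat.zero_le _)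
    · intro n _ _
      exact vonMangoldt_nonneg
  refine le_trans ?_ (add_le_add_right h1 _)
  rw [← Finset.sum_filter_add_sum_filter_not (Ioc (X / 8) X) Nat.Prime]
  apply add_le_add
  · refine Finset.sum_le_sum fun p hp => ?_
    rw [vonMangoldt_apply_prime (Finset.mem_filter.mp hp).2]
    have hl : 0 ≤ Real.log p := Real.log_natCast_nonneg p
    have h2 := ap_rg_le_one r p
    have h3 := ap_rg_nonneg r p
    have h4 := ap_cg_nonneg a c p
    calc rg r p * Real.log p * cg a c p = rg r p * (cg a c p * Real.log p) := by ring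
      _ ≤ 1 * (cg a c p * Real.log p) := mul_le_mul_of_nonneg_right h2 (mul_nonneg h4 hl)
      _ = _ := one_mul _
  · refine Finset.sum_le_sum fun p hp => ?_
    have hl : 0 ≤ Λ p := vonMangoldt_nonneg
    have h2 := ap_rg_le_one r p
    have h3 := ap_rg_nonneg r p
    have h4 := ap_cg_nonneg a c p
    have h5 := ap_cg_le_one a c p
    calc rg r p * Λ p * cg a c p ≤ (1 * Λ p) * 1 := by gcongr
      _ = _ := by ring

/-- AP, given the estimate for type II sums. -/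
theorem ap_lower_of_typeII
    (hTT : ∀ (s : ℕ) (ε : ℝ) (_ : 0 < ε), ∃ (K : ℕ) (C : ℝ), 0 < C ∧
    ∀ (r X N M : ℕ) (𝒜 : Finset ℕ) (c : ℤ), Fam 𝒜 N M → (∀ a ∈ 𝒜, IsCoprime c (a : ℤ)) →
    X ≤ (Z r) ^ s → N ^ K ≤ X → K ≤ X →
    ∑ a ∈ 𝒜, (Nat.totient a : ℝ) * Tsum r X (cg a c)
      ≤ #𝒜 * Tsum r X (fun _ => 1) + (ε * #𝒜 + C * M) * X)
    (hTI : ∀ (ε : ℝ) (_ : 0 < ε), ∃ s K : ℕ, 2 ≤ s ∧ ∀ (r X a : ℕ) (c : ℤ), 0 < a →
    IsCoprime c (a : ℤ) → (Z r) ^ s ≤ X → X ≤ (Z r) ^ (2 * s) → a ^ K ≤ X → K ≤ X →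
    ∑ n ∈ Ioc (X / 8) X, rg r n * Real.log n - ε * X
      ≤ (Nat.totient a : ℝ) * ∑ n ∈ Ioc (X / 8) X, rg r n * cg a c n * Real.log n) :
    ∃ (K : ℕ) (C : ℝ), 0 < C ∧
    ∀ (X N M : ℕ) (𝒜 : Finset ℕ) (c : ℤ), Fam 𝒜 N M → (∀ a ∈ 𝒜, IsCoprime c (a : ℤ)) →
    N ^ K ≤ X → K ≤ X → C * M ≤ #𝒜 →
    #𝒜 * (X / 8 : ℝ) ≤ ∑ a ∈ 𝒜, (Nat.totient a : ℝ) *
      ∑ p ∈ Ioc (X / 8) X with p.Prime, cg a c p * Real.log p := by
  obtain ⟨s, K1, hs, hI⟩ := hTI (1 / 50) (by norm_num)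
  obtain ⟨K2, C2, hC2, hII⟩ := hTT (2 * s) (1 / 50) (by norm_num)
  obtain ⟨C0, hC0⟩ := Chebyshev.psi_sub_theta_le_mul_sqrt
  obtain ⟨C1, hC1⟩ := exists_nat_ge C0
  refine ⟨K1 + K2 + 50 ^ 4 + 8 ^ (2 * s) + (50 * C1) ^ 4, 50 * C2, by positivity, ?_⟩
  intro X N M 𝒜 c hF hco hNK hKX hCM
  set K := K1 + K2 + 50 ^ 4 + 8 ^ (2 * s) + (50 * C1) ^ 4 with hK
  rcases Finset.eq_empty_or_nonempty 𝒜 with hempty | ⟨a0, ha0⟩
  · simp [hempty]
  have hN1 : 1 ≤ N := le_trans (hF.pos a0 ha0) (hF.le a0 ha0)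
  have hpow : ∀ m ≤ K, N ^ m ≤ X := fun m hm => le_trans (Nat.pow_le_pow_right hN1 hm) hNK
  have hX504 : 50 ^ 4 ≤ X := by
    refine le_trans ?_ hKX
    rw [hK]
    generalize (50 * C1) ^ 4 = t
    generalize 8 ^ (2 * s) = u
    omega
  obtain ⟨r, hr1, hr2, hr3⟩ := ap_level s X hs (by
    refine le_trans ?_ hKX
    rw [hK]
    generalize (50 * C1) ^ 4 = t
    generalize 8 ^ (2 * s) = u
    omega)
  have hX0 : (0 : ℝ) < X := by
    have : 0 < X := by omega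
    exact_mod_cast this
  -- notation
  set L1 : ℝ := ∑ n ∈ Ioc (X / 8) X, rg r n * Real.log n with hL1
  set T1 : ℝ := Tsum r X (fun _ => 1) with hT1
  set P1 : ℝ := ∑ d ∈ Ioc (X / 8) X, rg r d * Λ d * 1 with hP1
  have hid1 : L1 = P1 + T1 := by
    have h := identity r X (fun _ => 1)
    rw [hL1, hP1, hT1, ← h]
    refine Finset.sum_congr rfl fun n _ => ?_
    ring
  have hida : ∀ a, ∑ n ∈ Ioc (X / 8) X, rg r n * cg a c n * Real.log n =
      ∑ d ∈ Ioc (X / 8) X, rg r d * Λ d * cg a c d + Tsum r X (cg a c) := fun a =>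
    identity r X (cg a c)
  have hsumI : (#𝒜 : ℝ) * (L1 - 1 / 50 * X) ≤
      ∑ a ∈ 𝒜, (Nat.totient a : ℝ) * ∑ n ∈ Ioc (X / 8) X, rg r n * cg a c n * Real.log n := by
    rw [← nsmul_eq_mul]
    apply Finset.card_nsmul_le_sum
    intro a ha
    have haN := hF.le a ha
    refine hI r X a c (hF.pos a ha) (hco a ha) hr1 hr2 ?_ ?_
    · refine le_trans (Nat.pow_le_pow_left haN _) (hpow K1 ?_)
      rw [hK]
      generalize (50 * C1) ^ 4 = t
      generalize 8 ^ (2 * s) = u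
      omega
    · refine le_trans ?_ hKX
      rw [hK]
      generalize (50 * C1) ^ 4 = t
      generalize 8 ^ (2 * s) = u
      omega
  have hsumII := hII r X N M 𝒜 c hF hco hr2 (hpow K2 (by
      rw [hK]
      generalize (50 * C1) ^ 4 = t
      generalize 8 ^ (2 * s) = u
      omega)) (by
      refine le_trans ?_ hKX
      rw [hK]
      generalize (50 * C1) ^ 4 = t
      generalize 8 ^ (2 * s) = u
      omega)
  have hP1X := ap_one r X hr3 hX504
  -- prime powers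
  have hppow : (N : ℝ) * (Chebyshev.psi X - Chebyshev.theta X) ≤ X / 50 := by
    have h1 : Chebyshev.psi X - Chebyshev.theta X ≤ C1 * Real.sqrt X :=
      le_trans (hC0 X) (mul_le_mul_of_nonneg_right hC1 (Real.sqrt_nonneg _))
    have hN4 : (N : ℝ) ^ 4 ≤ X := by
      exact_mod_cast hpow 4 (by
        rw [hK]
        generalize (50 * C1) ^ 4 = t
        generalize 8 ^ (2 * s) = u
        omega)
    have hC4 : (50 * (C1 : ℝ)) ^ 4 ≤ X := by
      have : (50 * C1) ^ 4 ≤ X := by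
        refine le_trans ?_ hKX
        rw [hK]
        generalize (50 * C1) ^ 4 = t
        generalize 8 ^ (2 * s) = u
        omega
      exact_mod_cast this
    set q := Real.sqrt (Real.sqrt X) with hq
    have hq0 : 0 ≤ q := Real.sqrt_nonneg _
    have hq2 : q ^ 2 = Real.sqrt X := Real.sq_sqrt (Real.sqrt_nonneg _)
    have hq4 : q ^ 4 = (X : ℝ) := by
      calc q ^ 4 = (q ^ 2) ^ 2 := by ring
        _ = (X : ℝ) := by rw [hq2, Real.sq_sqrt hX0.le]
    have hNq : (N : ℝ) ≤ q := by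
      apply le_of_pow_le_pow_left₀ (n := 4) (by norm_num) hq0
      rw [hq4]; exact hN4
    have hCq : 50 * (C1 : ℝ) ≤ q := by
      apply le_of_pow_le_pow_left₀ (n := 4) (by norm_num) hq0
      rw [hq4]; exact hC4
    calc (N : ℝ) * (Chebyshev.psi X - Chebyshev.theta X) ≤ N * (C1 * Real.sqrt X) := by gcongr
      _ = N * (50 * C1) * q ^ 2 / 50 := by rw [hq2]; ring
      _ ≤ q * q * q ^ 2 / 50 := by gcongr
      _ = (X : ℝ) / 50 := by rw [← hq4]; ring
  have hres : ∑ a ∈ 𝒜, (Nat.totient a : ℝ) * ∑ d ∈ Ioc (X / 8) X, rg r d * Λ d * cg a c d ≤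
      ∑ a ∈ 𝒜, (Nat.totient a : ℝ) * ∑ p ∈ Ioc (X / 8) X with p.Prime, cg a c p * Real.log p +
      #𝒜 * (X / 50) := by
    have h1 : (#𝒜 : ℝ) * (X / 50) = ∑ a ∈ 𝒜, (X / 50 : ℝ) := by
      rw [Finset.sum_const, nsmul_eq_mul]
    rw [h1, ← Finset.sum_add_distrib]
    refine Finset.sum_le_sum fun a ha => ?_
    have h2 : (Nat.totient a : ℝ) ≤ N := by
      exact_mod_cast le_trans (Nat.totient_le a) (hF.le a ha)
    have h3 : 0 ≤ Chebyshev.psi X - Chebyshev.theta X := sub_nonneg.mpr (Chebyshev.theta_le_psi _)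
    calc (Nat.totient a : ℝ) * ∑ d ∈ Ioc (X / 8) X, rg r d * Λ d * cg a c d
        ≤ (Nat.totient a : ℝ) * (∑ p ∈ Ioc (X / 8) X with p.Prime, cg a c p * Real.log p +
        (Chebyshev.psi X - Chebyshev.theta X)) :=
          mul_le_mul_of_nonneg_left (ap_res r X a c) (Nat.cast_nonneg _)
      _ = (Nat.totient a : ℝ) * ∑ p ∈ Ioc (X / 8) X with p.Prime, cg a c p * Real.log p +
        (Nat.totient a : ℝ) * (Chebyshev.psi X - Chebyshev.theta X) := by ring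
      _ ≤ _ := by
        apply add_le_add_right
        exact le_trans (mul_le_mul_of_nonneg_right h2 h3) hppow
  simp_rw [hida, mul_add, Finset.sum_add_distrib] at hsumI
  have hA0 : (0 : ℝ) ≤ (#𝒜 : ℝ) := Nat.cast_nonneg _
  have hCMX : C2 * M * X ≤ #𝒜 * X / 50 := by
    have : 50 * (C2 * M) ≤ #𝒜 := by linarith
    nlinarith
  have hAX : 0 ≤ (#𝒜 : ℝ) * X := by positivity
  have h6 : (#𝒜 : ℝ) * (3 / 10 * X) ≤ #𝒜 * P1 := mul_le_mul_of_nonneg_left hP1X hA0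
  rw [hid1] at hsumI
  nlinarith

end Pool.Agent.helper96.Slope
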