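import Pool.Agent.helper67.Slope.AP
import Pool.Agent.helper96.Slope.TT3

/-!
# Module AP: primes in progressions on average over the family (unconditional form)
-/

namespace Pool.Agent.helper96.Slope

open Finset Pool.Agent.Lib.BrunHooley ArithmeticFunction

/-- `typeI` of module TI (proof of helper23) with `2 ≤ s`. -/
theorem typeI_two (ε : ℝ) (hε : 0 < ε) : ∃ s K : ℕ, 2 ≤ s ∧ ∀ (r X a : ℕ) (c : ℤ), 0 < a →
    IsCoprime c (a : ℤ) → (Z r) ^ s ≤ X → X ≤ (Z r) ^ (2 * s) → a ^ K ≤ X → K ≤ X →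
    ∑ n ∈ Ioc (X / 8) X, rg r n * Real.log n - ε * X
      ≤ (Nat.totient a : ℝ) * ∑ n ∈ Ioc (X / 8) X, rg r n * cg a c n * Real.log n := by
  -- the choice of `b` and `s`
  obtain ⟨b, hb⟩ := exists_pow_lt_of_lt_one (show (0 : ℝ) < ε / 528 by positivity)
    (show (1 / 2 : ℝ) < 1 by norm_num)
  set s : ℕ := 42 * (b + 1) + 2 with hs
  have hs0 : (0 : ℝ) < s := by rw [hs]; positivity
  have hsb : 4 * (s : ℝ) * (1 / 4) ^ b ≤ ε / 3 := by
    have h1 : (b + 1 : ℝ) ≤ 2 ^ b := by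
      have : b + 1 ≤ 2 ^ b := Nat.lt_two_pow_self
      exact_mod_cast this
    have h2 : (s : ℝ) ≤ 44 * (b + 1) := by
      rw [hs]; push_cast
      have : (0 : ℝ) ≤ b := Nat.cast_nonneg b
      linarith
    have h3 : (1 / 4 : ℝ) ^ b = (1 / 2) ^ b * (1 / 2) ^ b := by
      rw [← mul_pow]; norm_num
    have h4 : (2 : ℝ) ^ b * (1 / 2) ^ b = 1 := by rw [← mul_pow]; norm_num
    have h5 : (0 : ℝ) < (1 / 2 : ℝ) ^ b := by positivity
    calc 4 * (s : ℝ) * (1 / 4) ^ b ≤ 4 * (44 * 2 ^ b) * ((1 / 2) ^ b * (1 / 2) ^ b) := by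
          rw [h3]; gcongr; linarith
      _ = 176 * (1 / 2) ^ b * (2 ^ b * (1 / 2) ^ b) := by ring
      _ = 176 * (1 / 2) ^ b := by rw [h4, mul_one]
      _ ≤ ε / 3 := by linarith
  -- the choice of the threshold
  have hev : ∀ᶠ z : ℕ in Filter.atTop, 9 / ε ≤ Real.log z ∧ 18 * s * Real.log z ≤ ε * z := by
    have h1 : ∀ᶠ z : ℕ in Filter.atTop, 9 / ε ≤ Real.log z :=
      (Real.tendsto_log_atTop.comp tendsto_natCast_atTop_atTop).eventually_ge_atTop _
    have h2 : ∀ᶠ z : ℕ in Filter.atTop, ‖Real.log z‖ ≤ (ε / (18 * s)) * ‖(z : ℝ)‖ :=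
      tendsto_natCast_atTop_atTop.eventually (Real.isLittleO_log_id_atTop.bound (by positivity))
    filter_upwards [h1, h2] with z h1 h2
    refine ⟨h1, ?_⟩
    have h3 := (le_abs_self _).trans h2
    rw [Real.norm_of_nonneg (Nat.cast_nonneg z)] at h3
    calc 18 * s * Real.log z ≤ 18 * s * (ε / (18 * s) * z) := by gcongr
      _ = ε * z := by field_simp
  obtain ⟨z₀, hz₀⟩ := Filter.eventually_atTop.mp hev
  refine ⟨s, max (2 * s) (max 8 (z₀ ^ (2 * s))), by omega, ?_⟩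
  intro r X a c ha hc hX1 hX2 haX hKX
  have hKX1 : 8 ≤ X := le_trans (le_trans (le_max_left _ _) (le_max_right _ _)) hKX
  have hKX2 : z₀ ^ (2 * s) ≤ X := le_trans (le_trans (le_max_right _ _) (le_max_right _ _)) hKX
  have hz : z₀ ≤ Z r := by
    have h1 := hKX2.trans hX2
    exact (Nat.pow_le_pow_iff_left (by omega)).mp h1
  obtain ⟨hlog1, hlog2⟩ := hz₀ (Z r) hz
  have har : a ≤ Z r := by
    have h1 : a ^ (2 * s) ≤ (Z r) ^ (2 * s) :=
      (Nat.pow_le_pow_right ha (le_max_left _ _)).trans (haX.trans hX2)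
    exact (Nat.pow_le_pow_iff_left (by omega)).mp h1
  set H := X - X / 8 with hH
  have hXH : X / 8 + H = X := by omega
  set z : ℝ := (Z r : ℝ) with hzdef
  have hz2 : 2 ≤ z := by rw [hzdef]; exact_mod_cast two_le_Z r
  have hlz : 0 < Real.log z := Real.log_pos (by linarith)
  have hXr : (8 : ℝ) ≤ X := by exact_mod_cast hKX1
  have hlX0 : 0 ≤ Real.log X := Real.log_nonneg (by linarith)
  have hlX8 : 0 ≤ Real.log ((X : ℝ) / 8) := Real.log_nonneg (by linarith)
  have hlX8' : Real.log ((X : ℝ) / 8) = Real.log X - Real.log 8 :=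
    Real.log_div (by linarith) (by norm_num)
  have hl8 : Real.log 8 ≤ 3 := by
    have h1 : Real.log 8 = 3 * Real.log 2 := by
      rw [show (8 : ℝ) = 2 ^ 3 by norm_num, Real.log_pow]; push_cast; ring
    have := Real.log_two_lt_d9
    rw [h1]; linarith
  have hl80 : 0 ≤ Real.log 8 := Real.log_nonneg (by norm_num)
  have hlX : Real.log X ≤ 2 * s * Real.log z := by
    have h1 : (X : ℝ) ≤ z ^ (2 * s) := by rw [hzdef]; exact_mod_cast hX2
    have h2 := Real.log_le_log (by linarith) h1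
    rw [Real.log_pow] at h2
    push_cast at h2
    linarith
  have h4 : 0 ≤ (1 / 4 : ℝ) ^ b := by positivity
  have h4' : (1 / 4 : ℝ) ^ b ≤ 1 := pow_le_one₀ (by norm_num) (by norm_num)
  -- upper bound
  have U : ∑ n ∈ Ioc (X / 8) X, rg r n * Real.log n
      ≤ Real.log X * ((1 + (1 / 4 : ℝ) ^ b) * H * V r + z ^ (42 * (b + 1))) := by
    have h1 := ra_all b r (X / 8) H
    rw [hXH] at h1
    calc ∑ n ∈ Ioc (X / 8) X, rg r n * Real.log n ≤ ∑ n ∈ Ioc (X / 8) X, rg r n * Real.log X := by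
          refine sum_le_sum fun n hn => mul_le_mul_of_nonneg_left ?_ (id_rg_nonneg r n)
          have hn' := mem_Ioc.mp hn
          refine Real.log_le_log ?_ (by exact_mod_cast hn'.2)
          exact_mod_cast (by omega : 0 < n)
      _ = Real.log X * ∑ n ∈ Ioc (X / 8) X, rg r n := by rw [← sum_mul, mul_comm]
      _ ≤ _ := mul_le_mul_of_nonneg_left h1 hlX0
  -- lower bound
  have L : Real.log ((X : ℝ) / 8) * ((1 - (1 / 4 : ℝ) ^ b) * H * V r - 2 * a * z ^ (42 * (b + 1)))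
      ≤ (Nat.totient a : ℝ) * ∑ n ∈ Ioc (X / 8) X, rg r n * cg a c n * Real.log n := by
    have h1 := ra_ap b r (X / 8) H a c ha har hc
    rw [hXH] at h1
    calc Real.log ((X : ℝ) / 8) * ((1 - (1 / 4 : ℝ) ^ b) * H * V r - 2 * a * z ^ (42 * (b + 1)))
        ≤ Real.log ((X : ℝ) / 8)
          * ((Nat.totient a : ℝ) * ∑ n ∈ Ioc (X / 8) X, rg r n * cg a c n) :=
          mul_le_mul_of_nonneg_left h1 hlX8
      _ = (Nat.totient a : ℝ)
          * ∑ n ∈ Ioc (X / 8) X, rg r n * cg a c n * Real.log ((X : ℝ) / 8) := by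
          rw [← sum_mul]; ring
      _ ≤ _ := by
          refine mul_le_mul_of_nonneg_left (sum_le_sum fun n hn => ?_) (Nat.cast_nonneg _)
          refine mul_le_mul_of_nonneg_left ?_ (mul_nonneg (id_rg_nonneg r n) (id_cg_nonneg a c n))
          have hn' := mem_Ioc.mp hn
          refine Real.log_le_log (by linarith) ?_
          have h2 : X < (n) * 8 := by
            have := hn'.1
            omega
          have h3 : (X : ℝ) < n * 8 := by exact_mod_cast h2
          linarith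
  refine le_trans ?_ L
  rw [sub_le_iff_le_add]
  refine U.trans ?_
  have hHX : (H : ℝ) ≤ X := by exact_mod_cast (by omega : H ≤ X)
  have hH0 : (0 : ℝ) ≤ H := Nat.cast_nonneg H
  have hV0 := V_nonneg r
  have hV1 := V_le r
  have hHV : (H : ℝ) * V r ≤ X * (1 / Real.log z) :=
    mul_le_mul hHX hV1 hV0 (by linarith)
  have hHV0 : 0 ≤ (H : ℝ) * V r := mul_nonneg hH0 hV0
  have ha1 : (1 : ℝ) ≤ a := by exact_mod_cast ha
  have haz : (a : ℝ) ≤ z := by rw [hzdef]; exact_mod_cast har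
  have hp0 : 0 ≤ z ^ (42 * (b + 1)) := by positivity
  -- main part
  have m1 : (H * V r) * (Real.log 8 + 2 * (1 / 4 : ℝ) ^ b * Real.log X) ≤ (2 * ε / 3) * X := by
    have k1 : (H * V r) * (Real.log 8 + 2 * (1 / 4 : ℝ) ^ b * Real.log X)
        ≤ (X * (1 / Real.log z)) * (3 + 2 * (1 / 4 : ℝ) ^ b * (2 * s * Real.log z)) := by
      refine mul_le_mul hHV ?_ (by positivity) (by positivity)
      gcongr
    have k2 : (X * (1 / Real.log z)) * (3 + 2 * (1 / 4 : ℝ) ^ b * (2 * s * Real.log z))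
        = X * (3 / Real.log z) + X * (4 * s * (1 / 4) ^ b) := by
      field_simp
      ring
    have k3 : 3 / Real.log z ≤ ε / 3 := by
      rw [div_le_iff₀ hlz]
      have := (div_le_iff₀ hε).mp hlog1
      linarith
    have k4 := mul_le_mul_of_nonneg_left k3 (by linarith : (0 : ℝ) ≤ X)
    have k5 := mul_le_mul_of_nonneg_left hsb (by linarith : (0 : ℝ) ≤ X)
    rw [k2] at k1
    linarith
  -- error part
  have m2 : 3 * a * z ^ (42 * (b + 1)) * Real.log X ≤ (ε / 3) * X := by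
    have k1 : z ^ s ≤ X := by rw [hzdef]; exact_mod_cast hX1
    have k2 : z ^ s = z ^ (42 * (b + 1)) * z * z := by rw [hs, pow_add]; ring
    calc 3 * a * z ^ (42 * (b + 1)) * Real.log X
        ≤ 3 * z * z ^ (42 * (b + 1)) * (2 * s * Real.log z) := by gcongr
      _ = (z * z ^ (42 * (b + 1)) / 3) * (18 * s * Real.log z) := by ring
      _ ≤ (z * z ^ (42 * (b + 1)) / 3) * (ε * z) := by
          refine mul_le_mul_of_nonneg_left hlog2 (by positivity)
      _ = (ε / 3) * z ^ s := by rw [k2]; ring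
      _ ≤ _ := by gcongr
  have m3 : z ^ (42 * (b + 1)) * (Real.log X + 2 * a * Real.log ((X : ℝ) / 8))
      ≤ 3 * a * z ^ (42 * (b + 1)) * Real.log X := by
    have k1 : Real.log X ≤ a * Real.log X := le_mul_of_one_le_left hlX0 ha1
    have k2 : 2 * a * Real.log ((X : ℝ) / 8) ≤ 2 * a * Real.log X := by
      refine mul_le_mul_of_nonneg_left ?_ (by linarith)
      linarith
    calc z ^ (42 * (b + 1)) * (Real.log X + 2 * a * Real.log ((X : ℝ) / 8))
        ≤ z ^ (42 * (b + 1)) * (a * Real.log X + 2 * a * Real.log X) := by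
          refine mul_le_mul_of_nonneg_left (by linarith) hp0
      _ = _ := by ring
  have m4 : (H * V r) * (Real.log 8 + (1 / 4 : ℝ) ^ b * (Real.log X + Real.log ((X : ℝ) / 8)))
      ≤ (H * V r) * (Real.log 8 + 2 * (1 / 4 : ℝ) ^ b * Real.log X) := by
    refine mul_le_mul_of_nonneg_left ?_ hHV0
    have : (1 / 4 : ℝ) ^ b * (Real.log X + Real.log ((X : ℝ) / 8))
        ≤ (1 / 4 : ℝ) ^ b * (2 * Real.log X) := mul_le_mul_of_nonneg_left (by linarith) h4
    linarith
  have e1 : Real.log X * ((1 + (1 / 4 : ℝ) ^ b) * H * V r + z ^ (42 * (b + 1)))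
      = Real.log ((X : ℝ) / 8) * ((1 - (1 / 4 : ℝ) ^ b) * H * V r - 2 * a * z ^ (42 * (b + 1)))
        + (H * V r) * (Real.log 8 + (1 / 4 : ℝ) ^ b * (Real.log X + Real.log ((X : ℝ) / 8)))
        + z ^ (42 * (b + 1)) * (Real.log X + 2 * a * Real.log ((X : ℝ) / 8)) := by
    rw [hlX8']; ring
  rw [e1]
  linarith


theorem ap_lower : ∃ (K : ℕ) (C : ℝ), 0 < C ∧
    ∀ (X N M : ℕ) (𝒜 : Finset ℕ) (c : ℤ), Fam 𝒜 N M → (∀ a ∈ 𝒜, IsCoprime c (a : ℤ)) →
    N ^ K ≤ X → K ≤ X → C * M ≤ #𝒜 →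
    #𝒜 * (X / 8 : ℝ) ≤ ∑ a ∈ 𝒜, (Nat.totient a : ℝ) *
      ∑ p ∈ Ioc (X / 8) X with p.Prime, cg a c p * Real.log p :=
  ap_lower_of_typeII (fun s ε hε => typeII s ε hε) (fun ε hε => typeI_two ε hε)

end Pool.Agent.helper96.Slope
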