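import Pool.Agent.helper96.Slope.Defs

/-!
# Module TU: many tuples
-/

namespace Pool.Agent.helper96.Slope

open Finset Pool.Agent.Lib.BrunHooley

open Classical in
lemma tu_card_inj (B : Finset ℕ) (k : ℕ) :
    #{a ∈ Fintype.piFinset (fun _ : Fin k => B) | Function.Injective a} =
      (#B).descFactorial k := by
  have h := Fintype.card_embedding_eq (α := Fin k) (β := B)
  rw [Fintype.card_fin, Fintype.card_coe] at h
  rw [← h]
  apply Finset.card_eq_of_equiv_fintype
  refine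
    { toFun := fun a => ⟨fun i => ⟨a.1 i, ?_⟩, ?_⟩
      invFun := fun e => ⟨fun i => (e i : ℕ), ?_⟩
      left_inv := ?_
      right_inv := ?_ }
  · have := a.2
    rw [Finset.mem_filter, Fintype.mem_piFinset] at this
    exact this.1 i
  · intro i j hij
    have h1 := a.2
    rw [Finset.mem_filter] at h1
    exact h1.2 (Subtype.mk.inj hij)
  · rw [Finset.mem_filter, Fintype.mem_piFinset]
    refine ⟨fun i => (e i).2, fun i j hij => e.injective (Subtype.ext hij)⟩
  · intro a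
    rfl
  · intro e
    rfl

lemma tu_real (m k : ℕ) : ((m : ℝ) / 2) ^ k - (k : ℝ) ^ k ≤ (m.descFactorial k : ℝ) := by
  rcases lt_or_ge m (2 * k) with h | h
  · have h1 : ((m : ℝ) / 2) ^ k ≤ (k : ℝ) ^ k := by
      apply pow_le_pow_left₀ (by positivity)
      have : (m : ℝ) ≤ 2 * k := by exact_mod_cast h.le
      linarith
    have h2 : (0 : ℝ) ≤ (m.descFactorial k : ℝ) := Nat.cast_nonneg _
    linarith
  · have h1 := Nat.pow_sub_le_descFactorial m k
    have h2 : ((m : ℝ) / 2) ^ k ≤ ((m + 1 - k : ℕ) : ℝ) ^ k := by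
      apply pow_le_pow_left₀ (by positivity)
      rw [Nat.cast_sub (by omega)]
      push_cast
      have : (2 * k : ℝ) ≤ m := by exact_mod_cast h
      linarith
    have h3 : (((m + 1 - k) ^ k : ℕ) : ℝ) ≤ (m.descFactorial k : ℝ) := by exact_mod_cast h1
    push_cast at h3
    have h4 : (0 : ℝ) ≤ (k : ℝ) ^ k := by positivity
    linarith

open Classical in
/-- the coerced family has the same number of elements with a given property. -/
lemma tu_bind (F : Finset ℕ) (q : ℤ → Prop) :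
    #{a ∈ (do let a ← F; pure (a : ℤ)) | q a} = #(F.filter fun a : ℕ => q (a : ℤ)) := by
  have h : (do let a ← F; pure (a : ℤ)) = F.image (fun a : ℕ => (a : ℤ)) := by
    ext x
    simp [Finset.bind_def, eq_comm]
  rw [h, Finset.filter_image, Finset.card_image_of_injective _ Nat.cast_injective]

open Classical in
/-- `R` counts naturals. -/
lemma R_eq_nat {k : ℕ} (a : Fin k → ℕ) (c : ℤ) (N : ℕ) :
    R a c N = #((Icc 1 N : Finset ℕ).filter fun n : ℕ => ∀ i, IsP ((a i : ℤ) * (n : ℤ) + c)) := by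
  unfold R
  have h : (Icc (1 : ℤ) (N : ℤ)) = (Icc 1 N : Finset ℕ).image (fun n : ℕ => (n : ℤ)) := by
    ext x
    simp only [Finset.mem_Icc, Finset.mem_image]
    constructor
    · rintro ⟨h1, h2⟩
      exact ⟨x.toNat, ⟨by omega, by omega⟩, by omega⟩
    · rintro ⟨n, ⟨h1, h2⟩, rfl⟩
      exact ⟨by omega, by omega⟩
  rw [h, Finset.filter_image, Finset.card_image_of_injective _ Nat.cast_injective]

open Classical in
theorem tuples_lower {k : ℕ} (hk : 1 ≤ k) (F : Finset ℕ) (c : ℤ) (N : ℕ) (hN : 1 ≤ N) (S : ℝ)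
    (hS : 0 ≤ S)
    (hS2 : S ≤ ∑ n ∈ (Icc 1 N : Finset ℕ), (#(F.filter fun a : ℕ => IsP ((a : ℤ) * n + c)) : ℝ)) :
    (S / (2 * N)) ^ k * N - (k : ℝ) ^ k * N
      ≤ ∑ a ∈ (Fintype.piFinset fun _ : Fin k => F) with Function.Injective a, (R a c N : ℝ) := by
  set B : ℕ → Finset ℕ := fun n => F.filter fun a : ℕ => IsP ((a : ℤ) * (n : ℤ) + c) with hB
  have hN0 : (0 : ℝ) < N := by exact_mod_cast hN
  -- double counting
  have h1 : ∑ a ∈ (Fintype.piFinset fun _ : Fin k => F) with Function.Injective a, (R a c N : ℝ) =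
      ∑ n ∈ Icc 1 N, ((#(B n)).descFactorial k : ℝ) := by
    have h2 : ∀ a : Fin k → ℕ, (R a c N : ℝ) =
        ∑ n ∈ Icc 1 N, if ∀ i, IsP ((a i : ℤ) * n + c) then (1 : ℝ) else 0 := by
      intro a
      rw [R_eq_nat, Finset.card_filter]
      push_cast
      rfl
    simp_rw [h2]
    rw [Finset.sum_comm]
    refine Finset.sum_congr rfl fun n _ => ?_
    rw [← tu_card_inj (B n) k, Finset.card_filter, Finset.sum_filter]
    push_cast
    rw [← Finset.sum_filter, ← Finset.sum_filter, ← Finset.sum_filter, Finset.sum_const,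
      Finset.sum_const, nsmul_eq_mul, nsmul_eq_mul, mul_one, mul_one]
    congr 1
    norm_cast
    congr 1
    ext a
    simp only [Finset.mem_filter, Fintype.mem_piFinset, hB]
    constructor
    · rintro ⟨⟨h3, h4⟩, h5⟩
      exact ⟨fun i => ⟨h3 i, h5 i⟩, h4⟩
    · rintro ⟨h3, h4⟩
      exact ⟨⟨fun i => (h3 i).1, h4⟩, fun i => (h3 i).2⟩
  rw [h1]
  have h3 : ∑ n ∈ Icc 1 N, (((#(B n) : ℝ) / 2) ^ k - (k : ℝ) ^ k) ≤
      ∑ n ∈ Icc 1 N, ((#(B n)).descFactorial k : ℝ) :=
    Finset.sum_le_sum fun n _ => tu_real _ _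
  refine le_trans ?_ h3
  rw [Finset.sum_sub_distrib, Finset.sum_const, Nat.card_Icc, Nat.add_sub_cancel, nsmul_eq_mul,
    mul_comm (N : ℝ) ((k : ℝ) ^ k)]
  apply sub_le_sub_right
  -- power mean
  have h5 := pow_sum_div_card_le_sum_pow (s := Icc 1 N) (f := fun n => (#(B n) : ℝ) / 2) (n := k - 1)
    (fun n _ => by positivity)
  rw [Nat.card_Icc, Nat.add_sub_cancel, Nat.sub_add_cancel hk, ← Finset.sum_div] at h5
  refine le_trans ?_ h5
  have h6 : (S / 2) ^ k ≤ ((∑ n ∈ Icc 1 N, (#(B n) : ℝ)) / 2) ^ k := by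
    apply pow_le_pow_left₀ (by positivity)
    linarith
  have h7 : (S / (2 * N)) ^ k * N = (S / 2) ^ k / (N : ℝ) ^ (k - 1) := by
    obtain ⟨j, rfl⟩ : ∃ j, k = j + 1 := ⟨k - 1, by omega⟩
    rw [Nat.add_sub_cancel]
    have : S / (2 * (N : ℝ)) = (S / 2) / N := by field_simp
    rw [this, div_pow]
    field_simp
    ring
  rw [h7]
  exact div_le_div_of_nonneg_right h6 (by positivity)

end Pool.Agent.helper96.Slope
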